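import Mathlib
import Pool.Agent.W552.Defs
import Pool.Agent.H914R2.HodgeDefs
import Pool.Agent.H914R2.KDefs

/-!
# The numerical Hodge standard conjecture for products over arbitrary algebraically closed fields:
statements
-/

set_option autoImplicit false

open CategoryTheory AlgebraicGeometry

universe u v

namespace Pool.Agent.N166.NH

open Polynomial Pool.Agent.H914 Pool.Agent.H914.VarClass Pool.Agent.H914.VarClass.Obj
  Pool.Agent.H914.WeilCohomology Pool.Agent.H281R3.HT

/-- The monic polynomials of degree `2 g` with integral coefficients and constant term `q ^ g`, all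
of whose complex roots have absolute value `√q`. -/
def weilPolynomials (q g : ℕ) : Set ℤ[X] :=
  {f | f.Monic ∧ f.natDegree = 2 * g ∧ f.coeff 0 = (q : ℤ) ^ g ∧
    ∀ z : ℂ, aeval z f = 0 → ‖z‖ ^ 2 = q}

/-- Those whose middle coefficient is prime to `q`. -/
def ordinaryPolynomials (q g : ℕ) : Set ℤ[X] :=
  {f ∈ weilPolynomials q g | IsCoprime (f.coeff g) (q : ℤ)}

/-- Up to powers, the numbers in the set `S` lie in a group generated by the nonzero elements of the
number field `E` and `r` numbers. -/
def RankAtMost (E : IntermediateField ℚ ℂ) (r : ℕ) (S : Set ℂ) : Prop :=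
  ∃ u : Fin r → ℂ, (∀ j, u j ≠ 0) ∧ ∀ ρ ∈ S, ∃ (N : ℕ) (y : ℂ) (m : Fin r → ℤ), 0 < N ∧ y ∈ E ∧
    y ≠ 0 ∧ ρ ^ N = y * ∏ j, u j ^ m j

/-- The eigenvalues of `T` and all their conjugates over `ℚ` lie, up to powers, in a group generated
by the nonzero elements of the number field `E` and `r` numbers. -/
def EigenvalueRank {K M : Type*} [Field K] [CharZero K] [AddCommGroup M] [Module K M]
    (E : IntermediateField ℚ ℂ) (r : ℕ) (T : Module.End K M) : Prop :=
  ∃ P : ℚ[X], P ≠ 0 ∧ aeval T (P.map (algebraMap ℚ K)) = 0 ∧ RankAtMost E r {z : ℂ | aeval z P = 0}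

section gen

variable {K : Type*} [Field K] {R : Type*} [Ring R] [Algebra K R]

/-- The algebra `R` is generated by the subspace `U`. -/
def GeneratedBy (U : Submodule K R) : Prop := Algebra.adjoin K (U : Set R) = ⊤

/-- The subspace `U` is spanned by eigenvectors of `f` with eigenvalues `z ^ s`, `z` a root of some
`F i`. -/
def SpannedByEigenvectors (f : R →ₐ[K] R) (U : Submodule K R) (s : ℕ) {I : Type} (F : I → ℤ[X]) :
    Prop :=
  Submodule.span K {c | c ∈ U ∧ ∃ i, ∃ z : K, aeval z (F i) = 0 ∧ f c = z ^ s • c} = U

/-- The eigenvectors of `f` in `U` with eigenvalue `Q` lie in `V`. -/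
def EigenspaceLE (f : R →ₐ[K] R) (U : Submodule K R) (Q : K) (V : Submodule K R) : Prop :=
  ∀ c ∈ U, f c = Q • c → c ∈ V

end gen

variable {k : Type u} [Field k] {𝒱 : VarClass k}

/-- The conjecture of Hodge type for cycles modulo numerical equivalence: for `2 j ≤ n = dim X` and
every cycle `z` of codimension `j` which is not numerically trivial and is primitive, i.e. the
cycle `D ^ (n - 2 j + 1) z` is numerically trivial, the sign of the intersection number
`z · z · D ^ (n - 2 j)` is `(-1) ^ j`. -/
def NumHodge (ops : CycleOps 𝒱) (X : 𝒱.Obj) (D : X.Cycles) : Prop :=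
  ∀ j, 2 * j ≤ X.dim → ∀ z, X.IsCyc j z →
    (∀ p, p + 1 = j → ∀ w, X.IsCyc p w →
      X.V.degCycle (ops.mul (divPow ops D (X.dim - 2 * j + 1) z) w) = 0) →
    (∃ w, X.IsCyc (X.dim - j) w ∧ X.V.degCycle (ops.mul z w) ≠ 0) →
    0 < (-1 : ℚ) ^ j * X.V.degCycle (ops.mul z (divPow ops D (X.dim - 2 * j) z))

variable {ops : CycleOps 𝒱}

/-- `f` behaves like the Frobenius endomorphism, relative to the field with `q ^ s` elements, of an
abelian variety which is isogenous, over the field with `q` elements, to a product of powers of
abelian varieties with characteristic polynomials of Frobenius `F i`, polarized by `A.D`: the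
cohomology is generated by `H^1`, which is spanned by eigenvectors of Frobenius with eigenvalues
`z ^ s`, `z` a root of some `F i`; the Tate conjecture holds for divisors. -/
structure IsAbelianFrobenius (W : WeilCohomology.{u, v} ops) (q s : ℕ)
    {I : Type} (F : I → ℤ[X]) (A : Polarized 𝒱) (f : A.X ⟶ A.X) : Prop where
  divisor : A.X.IsCyc 1 A.D
  degree : 0 < A.X.V.degCycle (divPow ops A.D A.X.dim A.X.V.fundCycle)
  generated : GeneratedBy (W.gr A.X 1)
  eigen : SpannedByEigenvectors (W.map f) (W.gr A.X 1) s F
  tate : EigenspaceLE (W.map f) (W.gr A.X 2) ((q : W.K) ^ s) (algSpan W A.X)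
  cycles : FrobeniusOnCycles W A.X f (q ^ s)

/-- The polarization has positive degree, the hard Lefschetz theorem holds for it, and the
operator `Λ` attached to it is algebraic. -/
structure IsLefschetz (W : WeilCohomology.{u, v} ops) (Y : Polarized 𝒱) : Prop where
  divisor : Y.X.IsCyc 1 Y.D
  degree : 0 < Y.X.V.degCycle (divPow ops Y.D Y.X.dim Y.X.V.fundCycle)
  hardLefschetz : HardLefschetz W Y.X Y.D
  lefschetzB : LefschetzB W Y.X Y.D

/-- A linear operator on the cohomology of `X`. -/
def Operator (W : WeilCohomology.{u, v} ops) (X : 𝒱.Obj) : Type v := Module.End W.K (W.H X)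

/-- The result of applying the operator `m` times to the class `a`. -/
def Operator.iter {W : WeilCohomology.{u, v} ops} {X : 𝒱.Obj} (φ : Operator W X) (m : ℕ)
    (a : W.H X) : W.H X :=
  Nat.iterate (DFunLike.coe (F := Module.End W.K (W.H X)) φ) m a

/-- The eigenvalues of the operator have rank at most `r` over `E`. -/
def Operator.HasRank {W : WeilCohomology.{u, v} ops} {X : 𝒱.Obj} (φ : Operator W X)
    (E : IntermediateField ℚ ℂ) (r : ℕ) : Prop :=
  EigenvalueRank (K := W.K) (M := W.H X) E r φ

/-- For each cycle of codimension `i` on `X` some power `φ ^ m` multiplies its class by `Q ^ (m i)`. -/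
def FixesCycles (W : WeilCohomology.{u, v} ops) (X : 𝒱.Obj) (φ : Operator W X) (Q : ℕ) :
    Prop :=
  ∀ i z, X.IsCyc i z → ∃ m : ℕ, 0 < m ∧ φ.iter m (W.cl X z) = (Q : W.K) ^ (m * i) • W.cl X z

/-- `φ` and `φB` are the actions, on the cohomology of `A × B` and of `B`, of a (geometric) Frobenius
element at a place with residue field of `Q` elements: `φ` maps the external product of `a` and `b`
to the one of `f^* a` and `φB b`, where `f`, the Frobenius endomorphism of the constant variety `A`,
gives the action of the element on the cohomology of `A`; and for each cycle of codimension `i` on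
`A × B` some power `φ ^ m` multiplies its class by `Q ^ (m i)`. -/
structure IsFrobeniusElement (W : WeilCohomology.{u, v} ops) {A B : 𝒱.Obj} (f : A ⟶ A) (Q : ℕ)
    (φB : Operator W B) (φ : Operator W (A.prod B)) : Prop where
  prod : ∀ a b, φ.iter 1 (ext W a b) = ext W (W.map f a) (φB.iter 1 b)
  cycles : FixesCycles W (A.prod B) φ Q

/-- The class `c` is in the algebra generated by the classes of divisors: it is a linear combination
of classes of intersections of divisors. -/
def IsLefschetzClass (W : WeilCohomology.{u, v} ops) (X : 𝒱.Obj) (c : W.H X) : Prop :=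
  c ∈ Algebra.adjoin W.K {c : W.H X | ∃ D, X.IsCyc 1 D ∧ c = W.cl X D}

/-- The class `c` is a linear combination of products of classes on `A` which are combinations of
intersections of divisors with arbitrary classes on `B`. -/
def IsProductClass (W : WeilCohomology.{u, v} ops) (A B : 𝒱.Obj) (c : W.H (A.prod B)) : Prop :=
  c ∈ Submodule.span W.K {c | ∃ a b, IsLefschetzClass W A a ∧ c = ext W a b}

/-- The algebraic classes on `A` are combinations of intersections of divisors, and those on `A × B` are
combinations of products of such classes with classes on `B`. -/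
def CyclesDecompose (W : WeilCohomology.{u, v} ops) (A B : 𝒱.Obj) : Prop :=
  (∀ i z, A.IsCyc i z → IsLefschetzClass W A (W.cl A z)) ∧
    ∀ i z, (A.prod B).IsCyc i z → IsProductClass W A B (W.cl (A.prod B) z)

/-- The numerical Hodge standard conjecture holds for `A × B` if and only if it holds for `A` and for
`B`, for polarizations of `A` and `B` which satisfy the hard Lefschetz theorem and the conjecture
`B`, and their product polarization, if homological and numerical equivalence coincide on `B`. -/
def HodgeEquivalent (W : WeilCohomology.{u, v} ops) (A B : Polarized 𝒱) : Prop :=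
  IsLefschetz W A → IsLefschetz W B → HomEqNum W B.X →
    (NumHodge ops (A.prod ops B).X (A.prod ops B).D ↔ NumHodge ops A.X A.D ∧ NumHodge ops B.X B.D)

/-- The situation: `A` has a Frobenius endomorphism `f` of type `F` relative to the field with
`q ^ s` elements, and `B` has a Frobenius element `φB` at a place with `q ^ s` elements, whose
eigenvalues have rank at most `r` over `E`; `φ` is its action on the cohomology of `A × B`. -/
structure IsSituation (W : WeilCohomology.{u, v} ops) (E : IntermediateField ℚ ℂ) (q r s : ℕ)
    {I : Type} (F : I → ℤ[X]) (A B : Polarized 𝒱) (f : A.X ⟶ A.X)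
    (φB : Operator W B.X) (φ : Operator W (A.X.prod B.X)) : Prop where
  abelian : IsAbelianFrobenius W q s F A f
  rank : φB.HasRank E r
  frobenius : IsFrobeniusElement W f (q ^ s) φB φ

/-- For every algebraically closed field `k`, every class of smooth projective varieties over it
closed under products, every Weil cohomology with algebraically closed coefficient field and all `A`
and `B` as in `IsSituation`: the algebraic classes on `A` are combinations of intersections of
divisors, and those on `A × B` are combinations of products of such classes with classes on `B`;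
homological and numerical equivalence coincide on `A × B` if and only if they coincide on `B`; and in
this case **the numerical Hodge standard conjecture holds for `A × B` if and only if it holds for `A`
and for `B`**. -/
def NumHodgeForRankOver (E : IntermediateField ℚ ℂ) (q r : ℕ) {I : Type} (F : I → ℤ[X]) : Prop :=
  ∀ (k : Type u) [Field k] [IsAlgClosed k] (𝒱 : VarClass k) (ops : CycleOps 𝒱)
    (W : WeilCohomology.{u, v} ops) [IsAlgClosed W.K] (s : ℕ), 0 < s →
    ∀ (A B : Polarized 𝒱) (f : A.X ⟶ A.X) (φB : Operator W B.X)
      (φ : Operator W (A.X.prod B.X)), IsSituation W E q r s F A B f φB φ →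
      CyclesDecompose W A.X B.X ∧ (HomEqNum W (A.X.prod B.X) ↔ HomEqNum W B.X) ∧
      HodgeEquivalent W A B

end Pool.Agent.N166.NH
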