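import Mathlib
import Pool.Agent.N166.NH.Stm
import Pool.Agent.W484.HS.Fin
import Pool.Agent.W484.TB.Pair
import Pool.Agent.W484.CH.Fin

/-!
# The numerical Hodge standard conjecture for products over arbitrary algebraically closed fields
-/

set_option autoImplicit false
set_option linter.unusedSectionVars false

open CategoryTheory AlgebraicGeometry

universe u v

namespace Pool.Agent.N166.NH

open Module Polynomial Pool.Agent.H914 Pool.Agent.H914.VarClass Pool.Agent.H914.VarClass.Obj
  Pool.Agent.H914.WeilCohomology Pool.Agent.H281R3.HT Pool.Agent.W552 Pool.Agent.W484.HS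
  Pool.Agent.W484.TB Pool.Agent.W521.Frob Pool.Agent.W521.Count Pool.Agent.W521.Bad
  Pool.Agent.W521.Descent Pool.Agent.W521.Density

variable {k : Type u} [Field k] {𝒱 : VarClass k} {ops : CycleOps 𝒱}
  {W : WeilCohomology.{u, v} ops} {X Y : 𝒱.Obj}

theorem iter_ext_act (f : X ⟶ X) {φB : Module.End W.K (W.H Y)}
    {φ : Module.End W.K (W.H (X.prod Y))}
    (h1 : ∀ a b, φ (ext W a b) = ext W (W.map f a) (φB b))
    (α : W.K) (a : W.H X) (ha : W.map f a = α • a) (y : W.H Y) (N : ℕ) :
    (φ ^ N) (ext W a y) = ext W a (α ^ N • (φB ^ N) y) := by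
  induction N with
  | zero => simp
  | succ N ih =>
    rw [pow_succ', Module.End.mul_apply, ih, h1, ha, H281R3.HT.ext, H281R3.HT.ext, map_smul,
      map_smul, map_smul, map_smul, pow_succ' φB, Module.End.mul_apply, smul_mul_smul_comm,
      mul_smul_comm, pow_succ' α]

/-- **The classes of a given Frobenius eigenvalue on the product.** -/
theorem mem_prod_act [IsAlgClosed W.K] (f : X ⟶ X) {φB : Module.End W.K (W.H Y)}
    {φ : Module.End W.K (W.H (X.prod Y))}
    (h1 : ∀ a b, φ (ext W a b) = ext W (W.map f a) (φB b)) {Z : Type*}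
    (val : Z → W.K) (Q : W.K) (hQ : Q ≠ 0)
    (hgen : Algebra.adjoin W.K (W.gr X 1 : Set (W.H X)) = ⊤)
    (heig : Submodule.span W.K {v : W.H X | v ∈ W.gr X 1 ∧ ∃ x, W.map f v = val x • v} = W.gr X 1)
    (M : Subalgebra W.K (W.H X))
    (hdiv : ∀ c ∈ W.gr X 2, W.map f c = Q • c → c ∈ M)
    (hpair : ∀ ρ, Module.End.HasEigenvalue φB ρ → ExactPairK val Q ρ)
    (N i : ℕ) (hN : 0 < N) (c : W.H (X.prod Y))
    (hc : (φ ^ N) c = (Q ^ i) ^ N • c) :
    c ∈ Submodule.span W.K {c | ∃ a b, a ∈ M ∧ c = ext W a b} := by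
  classical
  obtain ⟨r, b, hb⟩ := exists_list_basis (W.map f) val (W.gr X 1) heig hgen
  obtain ⟨e, he1, he2⟩ := exists_comp (Y := Y) b
  choose L hL hLb using hb
  have hα : ∀ t, W.map f (b t) = ((L t).map (fun e => val e.2)).prod • b t := by
    intro t
    rw [hLb]
    exact Pool.Agent.W484.HS.map_list_prod (W.map f) val (L t) fun e he => (hL t e he).2
  set α : Fin r → W.K := fun t => ((L t).map (fun e => val e.2)).prod with hαdef
  set T := φB with hT
  -- the components are eigenvectors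
  have hcomp : ∀ t, α t ^ N • (T ^ N) (e c t) = (Q ^ i) ^ N • e c t := by
    have h1' : e ((φ ^ N) c) = ∑ t, Finsupp.single t (α t ^ N • (T ^ N) (e c t)) := by
      conv_lhs => rw [he1 c]
      rw [map_sum, map_sum]
      refine Finset.sum_congr rfl fun t _ => ?_
      rw [iter_ext_act f h1 (α t) (b t) (hα t), he2]
    intro t
    have h2' := congrArg (fun w => w t) h1'
    beta_reduce at h2'
    rw [hc, map_smul, Finsupp.smul_apply, Finsupp.finsetSum_apply, Finset.sum_eq_single t,
      Finsupp.single_eq_same] at h2'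
    · exact h2'.symm
    · intro t' _ ht'
      exact Finsupp.single_eq_of_ne ht'.symm
    · intro h
      exact absurd (Finset.mem_univ _) h
  rw [he1 c]
  refine Submodule.sum_mem _ fun t _ => ?_
  by_cases ht : e c t = 0
  · rw [ht]
    have h1 : ext W (b t) (0 : W.H Y) = 0 := by rw [H281R3.HT.ext, map_zero, mul_zero]
    rw [h1]
    exact Submodule.zero_mem _
  refine Submodule.subset_span ⟨b t, e c t, ?_, rfl⟩
  have hQi : (Q ^ i) ^ N ≠ 0 := pow_ne_zero _ (pow_ne_zero _ hQ)
  have hα0 : α t ^ N ≠ 0 := by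
    intro h0
    have h2 := hcomp t
    rw [h0, zero_smul] at h2
    rcases smul_eq_zero.1 h2.symm with h4 | h4
    · exact hQi h4
    · exact ht h4
  have h2 : (T ^ N) (e c t) = ((Q ^ i) ^ N / α t ^ N) • e c t := by
    have h3 := congrArg (fun z => (α t ^ N)⁻¹ • z) (hcomp t)
    simp only [smul_smul] at h3
    rw [inv_mul_cancel₀ hα0, one_smul] at h3
    rw [h3, div_eq_inv_mul]
  have h3 : Module.End.HasEigenvalue (T ^ N) ((Q ^ i) ^ N / α t ^ N) :=
    Module.End.hasEigenvalue_of_hasEigenvector ⟨Module.End.mem_eigenspace_iff.2 h2, ht⟩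
  have h4 := Module.End.hasEigenvalue_iff_mem_spectrum.1 h3
  rw [spectrum.map_pow_of_pos T hN] at h4
  obtain ⟨ρ, hρ, hρN⟩ := h4
  have hρe : Module.End.HasEigenvalue T ρ := Module.End.hasEigenvalue_iff_mem_spectrum.2 hρ
  have hρN : ρ ^ N = (Q ^ i) ^ N / α t ^ N := hρN
  rw [hLb t]
  refine list_mem (W.map f) val Q ρ hQ (hpair ρ hρe) (Subalgebra.toSubmodule M) M.one_mem
    (fun a ha b hb => M.mul_mem ha hb) (W.gr X 1 : Set (W.H X)) ?_ ?_ (L t).length
    (i : ℤ) N hN (L t) rfl (hL t) ?_
  · intro a ha b hb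
    rw [W.comm ha hb]
    simp
  · intro a ha b hb x y hx hy hxy
    refine hdiv _ (W.mul_mem ha hb) ?_
    rw [map_mul, hx, hy, smul_mul_smul_comm, hxy]
  · rw [mul_pow, hρN, zpow_natCast]
    exact mul_div_cancel₀ _ hα0

/-- **The classes of a given Frobenius eigenvalue on `X`.** -/
theorem mem_self_act (f : X ⟶ X) {Z : Type*}
    (val : Z → W.K) (Q : W.K) (hQ : Q ≠ 0)
    (hgen : Algebra.adjoin W.K (W.gr X 1 : Set (W.H X)) = ⊤)
    (heig : Submodule.span W.K {v : W.H X | v ∈ W.gr X 1 ∧ ∃ x, W.map f v = val x • v} = W.gr X 1)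
    (M : Subalgebra W.K (W.H X))
    (hdiv : ∀ c ∈ W.gr X 2, W.map f c = Q • c → c ∈ M)
    (hpair : ExactPairK val Q 1)
    (N i : ℕ) (hN : 0 < N) (c : W.H X)
    (hc : (W.map f)^[N] c = (Q ^ i) ^ N • c) : c ∈ M := by
  classical
  obtain ⟨r, b, hb⟩ := exists_list_basis (W.map f) val (W.gr X 1) heig hgen
  choose L hL hLb using hb
  have hα : ∀ t, W.map f (b t) = ((L t).map (fun e => val e.2)).prod • b t := by
    intro t
    rw [hLb]
    exact Pool.Agent.W484.HS.map_list_prod (W.map f) val (L t) fun e he => (hL t e he).2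
  set α : Fin r → W.K := fun t => ((L t).map (fun e => val e.2)).prod with hαdef
  have hpow : ∀ t, (W.map f)^[N] (b t) = α t ^ N • b t := by
    intro t
    have := iter_scale f (α t) 1 N (a := b t) (by simpa using hα t)
    rwa [one_mul] at this
  have hcomp : ∀ t, α t ^ N * b.repr c t = (Q ^ i) ^ N * b.repr c t := by
    intro t
    have h1 : b.repr ((W.map f)^[N] c) t = α t ^ N * b.repr c t := by
      conv_lhs => rw [← b.sum_repr c]
      rw [iter_linear, map_sum, map_sum, Finsupp.finsetSum_apply, Finset.sum_eq_single t]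
      · rw [← iter_linear]
        have h3 : (W.map f)^[N] (b.repr c t • b t) = b.repr c t • (α t ^ N • b t) := by
          rw [iter_linear, map_smul, ← iter_linear, hpow]
        rw [h3, map_smul, map_smul, Finsupp.smul_apply, Finsupp.smul_apply, b.repr_self,
          Finsupp.single_eq_same, smul_eq_mul, smul_eq_mul]
        ring
      · intro t' _ ht'
        rw [← iter_linear]
        have h3 : (W.map f)^[N] (b.repr c t' • b t') = b.repr c t' • (α t' ^ N • b t') := by
          rw [iter_linear, map_smul, ← iter_linear, hpow]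
        rw [h3, map_smul, map_smul, Finsupp.smul_apply, Finsupp.smul_apply, b.repr_self,
          Finsupp.single_eq_of_ne ht'.symm, smul_zero, smul_zero]
      · intro h
        exact absurd (Finset.mem_univ _) h
    rw [← h1, hc, map_smul, Finsupp.smul_apply, smul_eq_mul]
  rw [← b.sum_repr c]
  refine Subalgebra.sum_mem _ fun t _ => ?_
  by_cases ht : b.repr c t = 0
  · rw [ht, zero_smul]
    exact M.zero_mem
  refine M.smul_mem ?_ _
  have h5 := mul_right_cancel₀ ht (hcomp t)
  rw [hLb t]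
  refine list_mem (W.map f) val Q 1 hQ hpair (Subalgebra.toSubmodule M) M.one_mem
    (fun a ha b hb => M.mul_mem ha hb) (W.gr X 1 : Set (W.H X)) ?_ ?_ (L t).length
    (i : ℤ) N hN (L t) rfl (hL t) ?_
  · intro a ha b hb
    rw [W.comm ha hb]
    simp
  · intro a ha b hb x y hx hy hxy
    refine hdiv _ (W.mul_mem ha hb) ?_
    rw [map_mul, hx, hy, smul_mul_smul_comm, hxy]
  · rw [mul_one, zpow_natCast]
    exact h5

/-- The algebra generated by the classes of divisors. -/
noncomputable def lefAlg (W : WeilCohomology.{u, v} ops) (X : 𝒱.Obj) : Subalgebra W.K (W.H X) :=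
  Algebra.adjoin W.K {c : W.H X | ∃ D, X.IsCyc 1 D ∧ c = W.cl X D}

/-- The algebraic classes in `H^2` are combinations of classes of divisors. -/
theorem mem_lef_of_algSpan {c : W.H X} (hc : c ∈ algSpan W X) (hc2 : c ∈ W.gr X 2) :
    c ∈ lefAlg W X := by
  rw [algSpan_eq] at hc
  have h1 : ∀ c ∈ Submodule.span W.K {x | AS W X x}, proj (W.isInternal X) 2 c ∈
      lefAlg W X := by
    intro c hc
    induction hc using Submodule.span_induction with
    | mem x hx =>
      have h2 : proj (W.isInternal X) (2 * 1) x ∈ algClasses W X 1 := AS.proj hx 1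
      obtain ⟨D, hD, hD'⟩ := h2
      rw [mul_one] at hD'
      exact Algebra.subset_adjoin ⟨D, hD, hD'.symm⟩
    | zero => rw [map_zero]; exact Subalgebra.zero_mem _
    | add a b _ _ ha hb => rw [map_add]; exact Subalgebra.add_mem _ ha hb
    | smul t a _ ha => rw [map_smul]; exact Subalgebra.smul_mem _ ha t
  have h3 := h1 c hc
  rwa [proj_same (W.isInternal X) hc2] at h3

theorem lef_le_algSpan {c : W.H X} (hc : c ∈ lefAlg W X) : c ∈ algSpan W X := by
  induction hc using Algebra.adjoin_induction with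
  | mem x hx =>
    obtain ⟨D, hD, rfl⟩ := hx
    exact Submodule.subset_span (Set.mem_iUnion.2 ⟨1, D, hD, rfl⟩)
  | algebraMap r =>
    rw [Algebra.algebraMap_eq_smul_one]
    exact Submodule.smul_mem _ _ one_mem_algSpan
  | add x y _ _ hx hy => exact Submodule.add_mem _ hx hy
  | mul x y _ _ hx hy => exact mul_mem_algSpan hx hy

theorem prod_le_mix {c : W.H (X.prod Y)} (hc : IsProductClass W X Y c) :
    c ∈ mixSpan W X Y := by
  induction hc using Submodule.span_induction with
  | mem x hx =>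
    obtain ⟨a, b, ha, rfl⟩ := hx
    exact ext_mem_mixSpan (lef_le_algSpan ha) b
  | zero => exact Submodule.zero_mem _
  | add a b _ _ ha hb => exact Submodule.add_mem _ ha hb
  | smul t a _ ha => exact Submodule.smul_mem _ _ ha

section good

variable {I : Type} [Finite I] (g : I → ℕ) (E : IntermediateField ℚ ℂ) [FiniteDimensional ℚ E]
  {q : ℕ} (hq : q ≠ 0) (r : ℕ) (hr : ∀ i, r < g i)
  (x : (Σ i, Fin (g i)) → ℤ) (hx : GoodU (splitPrimes E) g q x)

include hq hr hx

theorem numHodgeForRankOver_of_good :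
    NumHodgeForRankOver.{u, v} E q r (fun i => weil q (polys g x i)) := by
  intro k _ _ 𝒱 ops W _ s hs A B f φB φ hsit
  obtain ⟨hA0, ⟨P, hP0, hP, hrank⟩, hφ⟩ := hsit
  have hA : Pool.Agent.W484.HS.IsAbelianFrobenius W q s (fun i => weil q (polys g x i)) A f :=
    ⟨hA0.divisor, hA0.degree, hA0.generated, hA0.eigen, hA0.tate, hA0.cycles⟩
  have hQ : (q : W.K) ^ s ≠ 0 := pow_ne_zero _ (by exact_mod_cast hq)
  have hdiv : ∀ c ∈ W.gr A.X 2, W.map f c = (q : W.K) ^ s • c → c ∈ lefAlg W A.X :=
    fun c hc hc' => mem_lef_of_algSpan (hA.tate c hc hc') hc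
  have hpair1 : ExactPairK (fun z : {z : W.K // ∃ i, aeval z (weil q (polys g x i)) = 0} =>
      (z : W.K) ^ s) ((q : W.K) ^ s) 1 :=
    exactPair_field_over g E hq r hr x hx s hs (X - 1) (Polynomial.X_sub_C_ne_zero 1)
      (Pool.Agent.W484.CH.rank_one E r) 1 (by rw [map_sub, aeval_X, map_one, sub_self])
  have hAD : HomEqNum W A.X := by
    refine homEqNum_gen (Z := {z : W.K // ∃ i, aeval z (weil q (polys g x i)) = 0}) f
      (fun z => (z : W.K) ^ s) (q ^ s) (pow_ne_zero _ hq) hA.divisor hA.degree hA.cycles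
      hA.generated (eigen_span hA) ?_ ?_
    · intro c hc hc'
      refine hA.tate c hc ?_
      rw [hc']
      push_cast
      rfl
    · push_cast
      exact hpair1
  have hAL : ∀ i z, A.X.IsCyc i z → IsLefschetzClass W A.X (W.cl A.X z) := by
    intro i z hz
    obtain ⟨m, hm, hm'⟩ := hA.cycles i z hz
    have hpull : ∀ (m : ℕ) (z : A.X.Cycles), W.cl _ ((ops.pull f)^[m] z) =
        (W.map f)^[m] (W.cl _ z) := by
      intro m
      induction m with
      | zero => intro z; rfl
      | succ m ih =>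
        intro z
        rw [Function.iterate_succ_apply', Function.iterate_succ_apply', W.cl_pull, ih]
    rw [hpull] at hm'
    refine mem_self_act (Z := {z : W.K // ∃ i, aeval z (weil q (polys g x i)) = 0}) f
      (fun z => (z : W.K) ^ s) ((q : W.K) ^ s) hQ hA.generated (eigen_span hA) (lefAlg W A.X) hdiv
      hpair1 m i hm _ ?_
    rw [hm']
    congr 1
    push_cast
    rw [← pow_mul, mul_comm m i]
    ring
  have hmixP : ∀ i z, (A.X.prod B.X).IsCyc i z →
      IsProductClass W A.X B.X (W.cl (A.X.prod B.X) z) := by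
    intro i z hz
    obtain ⟨m, hm, hm'⟩ := hφ.cycles i z hz
    refine mem_prod_act (Z := {z : W.K // ∃ i, aeval z (weil q (polys g x i)) = 0})
      (φB := φB) (φ := φ) f hφ.prod
      (fun z => (z : W.K) ^ s) ((q : W.K) ^ s) hQ hA.generated (eigen_span hA) (lefAlg W A.X)
      hdiv ?_ m i hm _ ?_
    · intro ρ hρ
      refine exactPair_field_over g E hq r hr x hx s hs P hP0 hrank ρ ?_
      obtain ⟨v, hv⟩ := hρ.exists_hasEigenvector
      have h1 : aeval (R := W.K) (A := Module.End W.K (W.H B.X)) φB (P.map (algebraMap ℚ W.K)) v =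
          (P.map (algebraMap ℚ W.K)).eval ρ • v := by
        exact Module.End.aeval_apply_of_hasEigenvector hv
      rw [hP, LinearMap.zero_apply] at h1
      have h2 := (smul_eq_zero.1 h1.symm).resolve_right hv.2
      rw [Polynomial.eval_map] at h2
      rw [Polynomial.aeval_def]
      exact h2
    · refine Eq.trans (Module.End.pow_apply (M := W.H (A.X.prod B.X)) φ m _) (hm'.trans ?_)
      congr 1
      push_cast
      rw [← pow_mul, mul_comm m i]
      ring
  have hmix : ∀ i z, (A.X.prod B.X).IsCyc i z → W.cl (A.X.prod B.X) z ∈ mixSpan W A.X B.X :=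
    fun i z hz => prod_le_mix (hmixP i z hz)
  refine ⟨⟨hAL, hmixP⟩, ⟨fun h => homEqNum_right hA.divisor hA.degree h,
    fun h => homEqNum_prod hAD h hmix⟩, fun hLA hLB hBD => ?_⟩
  have hprod := homEqNum_prod hAD hBD hmix
  obtain ⟨F, hF1, ls⟩ := exists_fr hLA.divisor hLA.hardLefschetz hLA.lefschetzB
  obtain ⟨G, hG1, _⟩ := exists_fr hLB.divisor hLB.hardLefschetz hLB.lefschetzB
  have hD : (A.X.prod B.X).IsCyc 1 (A.prod ops B).D :=
    SmVar.IsCyc.add (ops.pull_mem _ hLA.divisor) (ops.pull_mem _ hLB.divisor)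
  refine ⟨fun h => ?_, fun h => ?_⟩
  · obtain ⟨h1, h2⟩ := hodge_left_of_prod hLA.divisor hLB.divisor hLA.degree hLB.degree hF1 hG1
      (hodge_of_num hD hprod h)
    exact ⟨num_of_hodge hLA.divisor hAD h1, num_of_hodge hLB.divisor hBD h2⟩
  · exact num_of_hodge hD hprod (hodge_prod hF1 ls hG1 (hodge_of_num hLA.divisor hAD h.1)
      (hodge_of_num hLB.divisor hBD h.2) hmix).1

end good

theorem main {I : Type} [Fintype I] (g : I → ℕ) (r : ℕ) (hr : ∀ i, r < g i)
    (E : IntermediateField ℚ ℂ) [FiniteDimensional ℚ E] :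
    ∃ C : ℝ, ∀ q : ℕ, IsPrimePow q → ∀ S : I → Set ℤ[X],
      (∀ i, ordinaryPolynomials q (g i) ⊆ S i ∧ S i ⊆ weilPolynomials q (g i)) →
      (∀ i, (S i).Finite ∧ (S i).Nonempty) ∧
      ({f : I → ℤ[X] | (∀ i, f i ∈ S i) ∧ ¬ NumHodgeForRankOver.{u, v} E q r f}.ncard : ℝ) ≤
        C * (Real.log q * (q : ℝ) ^ (-(1 / 6) : ℝ)) * ∏ i, ((S i).ncard : ℝ) :=
  count_of_goodU (splitPrimes E) (dense_splitPrimes E) g
    (fun i => (Nat.zero_le r).trans_lt (hr i)) (fun q f => NumHodgeForRankOver.{u, v} E q r f)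
    fun _ hq x hx => numHodgeForRankOver_of_good g E hq.pos.ne' r hr x hx

end Pool.Agent.N166.NH
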